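import Pool.Agent.Helper92.BO.GoalsA

/-!
# BO-LIM: the derivative of the volume along the flow
-/

namespace Pool.Agent.Helper77.BO

open MeasureTheory Filter Topology Function
open Pool.Agent.Helper92.BO

/-- The real Lipschitz bound. -/
lemma lipR (hL : LipStmt) (hC : CasStmt) (G : SimpleGraph ℕ) (l : ℝ) (h0 : 0 < l) (h1 : l ≤ 1)
    (L : List ℕ) (b b' : ℕ → ℝ) (hb : In01 L b) (hb' : In01 L b') :
    |ZR G l L b| ≤ 1 ∧ |ZR G l L b - ZR G l L b'| ≤ (L.map fun u => |b u - b' u|).sum := by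
  have hn : ‖(l : ℂ)‖ ≤ 1 := by
    rw [Complex.norm_real, Real.norm_eq_abs, abs_of_pos h0]; exact h1
  obtain ⟨h2, h3⟩ := hL G (l : ℂ) 1 le_rfl hn L b b' hb hb'
  rw [hC, one_pow, Complex.norm_real, Real.norm_eq_abs] at h2
  rw [hC, hC, one_pow, one_mul, ← Complex.ofReal_sub, Complex.norm_real, Real.norm_eq_abs] at h3
  exact ⟨h2, h3⟩

/-- The flow stays in `[0, 1]` and moves by at most `t`. -/
lemma gt_mem (s : ℕ → ℝ) (t : ℝ) (b : ℕ → ℝ) (u : ℕ) (hs : s u = 1 ∨ s u = -1) (ht0 : 0 ≤ t)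
    (ht1 : t ≤ 1) (hb : 0 ≤ b u ∧ b u ≤ 1) :
    (0 ≤ gt s t b u ∧ gt s t b u ≤ 1) ∧ |gt s t b u - b u| ≤ t := by
  obtain ⟨h0, h1⟩ := hb
  have ha : 0 ≤ b u * (1 - b u) := mul_nonneg h0 (by linarith)
  have ha1 : b u * (1 - b u) ≤ 1 := by nlinarith
  have hta : 0 ≤ t * (b u * (1 - b u)) := mul_nonneg ht0 ha
  have hta1 : t * (b u * (1 - b u)) ≤ t := by nlinarith
  have hta2 : t * (b u * (1 - b u)) ≤ b u * (1 - b u) := by nlinarith
  have hq1 : b u * (1 - b u) ≤ b u := by nlinarith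
  have hq2 : b u * (1 - b u) ≤ 1 - b u := by nlinarith
  unfold gt
  rcases hs with h | h
  · rw [h, one_mul]
    refine ⟨⟨by linarith, by linarith⟩, ?_⟩
    rw [show b u - t * (b u * (1 - b u)) - b u = - (t * (b u * (1 - b u))) by ring, abs_neg,
      abs_of_nonneg hta]
    exact hta1
  · rw [h, neg_one_mul, neg_mul, sub_neg_eq_add]
    refine ⟨⟨by linarith, by linarith⟩, ?_⟩
    rw [show b u + t * (b u * (1 - b u)) - b u = t * (b u * (1 - b u)) by ring,
      abs_of_nonneg hta]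
    exact hta1

lemma gt_in (s : ℕ → ℝ) (hs : ∀ v, s v = 1 ∨ s v = -1) (t : ℝ) (L : List ℕ) (b : ℕ → ℝ)
    (ht0 : 0 ≤ t) (ht1 : t ≤ 1) (hb : In01 L b) : In01 L (gt s t b) :=
  fun u hu => (gt_mem s t b u (hs u) ht0 ht1 (hb u hu)).1

lemma sum_le_len (L : List ℕ) (f : ℕ → ℝ) (t : ℝ) (h : ∀ u ∈ L, f u ≤ t) :
    (L.map f).sum ≤ L.length * t := by
  induction L with
  | nil => simp
  | cons a L ih =>
    rw [List.map_cons, List.sum_cons, List.length_cons]
    have h1 := ih fun u hu => h u (List.mem_cons_of_mem _ hu)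
    have h2 := h a List.mem_cons_self
    push_cast
    linarith

/-- The quotient is bounded. -/
lemma quot_bd (hL : LipStmt) (hC : CasStmt) (G : SimpleGraph ℕ) (s : ℕ → ℝ)
    (hs : ∀ v, s v = 1 ∨ s v = -1) (l : ℝ) (h0 : 0 < l) (h1 : l ≤ 1) (t : ℝ) (L : List ℕ)
    (b : ℕ → ℝ) (ht0 : 0 ≤ t) (ht1 : t ≤ 1) (hb : In01 L b) :
    |ZR G l L (gt s t b) - ZR G l L b| ≤ L.length * t := by
  refine (lipR hL hC G l h0 h1 L _ b (gt_in s hs t L b ht0 ht1 hb) hb).2.trans ?_
  exact sum_le_len L _ t fun u hu => (gt_mem s t b u (hs u) ht0 ht1 (hb u hu)).2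

/-- Continuity along a path of bounds. -/
lemma contZ (hL : LipStmt) (hC : CasStmt) (G : SimpleGraph ℕ) (l : ℝ) (h0 : 0 < l) (h1 : l ≤ 1)
    (L : List ℕ) (S : Set ℝ) (F : ℝ → ℕ → ℝ) (hF : ∀ u ∈ L, ContinuousOn (fun x => F x u) S)
    (hI : ∀ x ∈ S, In01 L (F x)) : ContinuousOn (fun x => ZR G l L (F x)) S := by
  intro x hx
  have h2 : Tendsto (fun y => (L.map fun u => |F y u - F x u|).sum) (𝓝[S] x)
      (𝓝 (L.map fun _ => (0 : ℝ)).sum) := by
    refine tendsto_list_sum (f := fun u y => |F y u - F x u|) (a := fun _ => (0 : ℝ)) L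
      fun u hu => ?_
    have h3 := (hF u hu) x hx
    have h4 : Tendsto (fun y => |F y u - F x u|) (𝓝[S] x) (𝓝 |F x u - F x u|) :=
      (h3.tendsto.sub tendsto_const_nhds).abs
    simpa using h4
  have h5 : (L.map fun _ => (0 : ℝ)).sum = 0 := by simp
  rw [h5] at h2
  refine tendsto_iff_dist_tendsto_zero.2 ?_
  refine squeeze_zero' (Eventually.of_forall fun _ => dist_nonneg) ?_ h2
  filter_upwards [self_mem_nhdsWithin] with y hy
  rw [Real.dist_eq]
  exact (lipR hL hC G l h0 h1 L _ _ (hI y hy) (hI x hx)).2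

/-- The cut bounds are in `[0, 1]`. -/
lemma cut_in (G : SimpleGraph ℕ) (v : ℕ) (L : List ℕ) (b : ℕ → ℝ) (x : ℝ)
    (hx1 : x ≤ 1) (hb : In01 L b) : In01 L (cut G v (1 - x) b) := by
  intro u hu
  obtain ⟨h0, h1⟩ := hb u hu
  unfold cut
  split_ifs
  · exact ⟨le_min h0 (by linarith), (min_le_left _ _).trans h1⟩
  · exact ⟨h0, h1⟩

lemma cut_good (G : SimpleGraph ℕ) (v : ℕ) (L : List ℕ) (b : ℕ → ℝ) (x : ℝ)
    (hx1 : x < 1) (hx2 : x ≠ 1 / 2) (hb : Good L b) : Good L (cut G v (1 - x) b) := by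
  intro u hu
  obtain ⟨h0, h1, h2⟩ := hb u hu
  unfold cut
  split_ifs
  · refine ⟨lt_min h0 (by linarith), (min_le_left _ _).trans h1, ?_⟩
    rcases min_choice (b u) (1 - x) with h | h
    · rw [h]; exact h2
    · rw [h]; intro h3; apply hx2; linarith
  · exact ⟨h0, h1, h2⟩

lemma cut_cont (G : SimpleGraph ℕ) (v : ℕ) (b : ℕ → ℝ) (u : ℕ) :
    Continuous fun x : ℝ => cut G v (1 - x) b u := by
  unfold cut
  split_ifs
  · exact continuous_const.min (continuous_const.sub continuous_id)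
  · exact continuous_const

lemma gt_cut_cont (s : ℕ → ℝ) (t : ℝ) (G : SimpleGraph ℕ) (v : ℕ) (b : ℕ → ℝ) (u : ℕ) :
    Continuous fun x : ℝ => gt s t (cut G v (1 - x) b) u := by
  unfold gt
  have h := cut_cont G v b u
  exact h.sub (continuous_const.mul (h.mul (continuous_const.sub h)))

/-- The threshold. -/
noncomputable def th (τ : ℝ) : ℝ := 1 / 2 + τ / (2 * (Real.sqrt (1 + τ ^ 2) + 1))

lemma th_root (τ : ℝ) : th τ - τ * (th τ * (1 - th τ)) = 1 / 2 := by
  have h1 : Real.sqrt (1 + τ ^ 2) ^ 2 = 1 + τ ^ 2 := Real.sq_sqrt (by positivity)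
  have h2 : 0 ≤ Real.sqrt (1 + τ ^ 2) := Real.sqrt_nonneg _
  unfold th
  set r := Real.sqrt (1 + τ ^ 2) with hr
  have h3 : r + 1 ≠ 0 := by linarith
  have h4 : τ ^ 2 = r ^ 2 - 1 := by linarith
  field_simp
  linear_combination τ * h4

lemma th_abs (τ : ℝ) (h1 : |τ| ≤ 1 / 2) : |th τ - 1 / 2| ≤ 1 / 8 := by
  have h2 : 1 ≤ Real.sqrt (1 + τ ^ 2) := by
    rw [show (1 : ℝ) = Real.sqrt 1 by simp]
    apply Real.sqrt_le_sqrt
    simp
    positivity
  unfold th
  rw [add_sub_cancel_left, abs_div, abs_of_pos (by linarith : (0 : ℝ) < 2 * (√(1 + τ ^ 2) + 1)),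
    div_le_iff₀ (by linarith)]
  linarith

lemma th_iff (τ : ℝ) (h1 : |τ| ≤ 1 / 2) (x : ℝ) (hx : 0 ≤ x) (hx1 : x ≤ 1) :
    x - τ * (x * (1 - x)) ≤ 1 / 2 ↔ x ≤ th τ := by
  have h2 := th_root τ
  have h3 := abs_le.1 (th_abs τ h1)
  have h4 := abs_le.1 h1
  have h5 : 0 < 1 - τ * (1 - x - th τ) := by
    have h6 : |τ * (1 - x - th τ)| ≤ 1 / 2 * 1 := by
      rw [abs_mul]
      refine mul_le_mul h1 ?_ (abs_nonneg _) (by norm_num)
      rw [abs_le]
      constructor <;> linarith [h3.1, h3.2]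
    have h7 := (abs_le.1 h6).2
    linarith
  have h8 : x - τ * (x * (1 - x)) - 1 / 2 = (x - th τ) * (1 - τ * (1 - x - th τ)) := by
    linear_combination h2
  constructor
  · intro h
    by_contra hc
    push Not at hc
    have := mul_pos (sub_pos.2 hc) h5
    linarith
  · intro h
    have := mul_nonneg (sub_nonneg.2 h) h5.le
    nlinarith

lemma th_deriv : HasDerivAt th (1 / 4) 0 := by
  have h1 : HasDerivAt (fun τ : ℝ => 1 + τ ^ 2) (2 * 0) 0 := by
    have := (hasDerivAt_pow 2 (0 : ℝ)).const_add 1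
    simpa using this
  have h2 := h1.sqrt (by norm_num)
  have h3 : HasDerivAt (fun τ : ℝ => 2 * (Real.sqrt (1 + τ ^ 2) + 1)) 0 0 := by
    have := (h2.add_const 1).const_mul 2
    simpa using this
  have h4 := ((hasDerivAt_id (0 : ℝ)).div h3 (by norm_num)).const_add (1 / 2)
  have h5 : (fun τ : ℝ => 1 / 2 +
      (((id : ℝ → ℝ) / fun τ : ℝ => 2 * (Real.sqrt (1 + τ ^ 2) + 1)) : ℝ → ℝ) τ) = th := by
    funext τ
    simp [th]
  rw [h5] at h4
  refine h4.congr_deriv ?_
  norm_num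

/-- The weight with a threshold. -/
noncomputable def wt (l θ : ℝ) (x : ℝ) : ℝ := if x ≤ θ then 1 else l

lemma wt_meas (l θ : ℝ) : Measurable (wt l θ) :=
  Measurable.ite measurableSet_Iic measurable_const measurable_const

lemma wt_bd (l θ x : ℝ) (h0 : 0 < l) (h1 : l ≤ 1) : ‖wt l θ x‖ ≤ 1 := by
  unfold wt
  split_ifs
  · simp
  · rw [Real.norm_eq_abs, abs_of_pos h0]; exact h1

lemma wt_int (l θ B : ℝ) (h0 : 0 < l) (h1 : l ≤ 1) (h : ℝ → ℝ) (hB : 0 ≤ B) (hB1 : B ≤ 1)
    (hh : ContinuousOn h (Set.Icc 0 1)) :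
    IntervalIntegrable (fun x => wt l θ x * h x) volume 0 B := by
  have h2 : IntervalIntegrable h volume 0 B := by
    apply ContinuousOn.intervalIntegrable
    rw [Set.uIcc_of_le hB]
    exact hh.mono (Set.Icc_subset_Icc_right hB1)
  rw [intervalIntegrable_iff_integrableOn_Ioc_of_le hB] at h2 ⊢
  exact Integrable.bdd_mul h2 (wt_meas l θ).aestronglyMeasurable
    (Eventually.of_forall fun x => wt_bd l θ x h0 h1)

lemma wt_split (l θ B : ℝ) (h0 : 0 < l) (h1 : l ≤ 1) (h : ℝ → ℝ) (hθ : 0 ≤ θ) (hB : 0 ≤ B)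
    (hB1 : B ≤ 1) (hh : ContinuousOn h (Set.Icc 0 1)) :
    ∫ x in (0 : ℝ)..B, wt l θ x * h x =
      (1 - l) * (∫ x in (0 : ℝ)..(min θ B), h x) + l * ∫ x in (0 : ℝ)..B, h x := by
  set c := min θ B with hc
  have hc0 : 0 ≤ c := le_min hθ hB
  have hcB : c ≤ B := min_le_right _ _
  have hi : IntervalIntegrable (fun x => wt l θ x * h x) volume 0 B :=
    wt_int l θ B h0 h1 h hB hB1 hh
  have hhi : IntervalIntegrable h volume 0 B := by
    apply ContinuousOn.intervalIntegrable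
    rw [Set.uIcc_of_le hB]
    exact hh.mono (Set.Icc_subset_Icc_right hB1)
  have hs1 : Set.uIcc 0 c ⊆ Set.uIcc 0 B := by
    rw [Set.uIcc_of_le hc0, Set.uIcc_of_le hB]
    exact Set.Icc_subset_Icc_right hcB
  have hs2 : Set.uIcc c B ⊆ Set.uIcc 0 B := by
    rw [Set.uIcc_of_le hcB, Set.uIcc_of_le hB]
    exact Set.Icc_subset_Icc_left hc0
  rw [← intervalIntegral.integral_add_adjacent_intervals (hi.mono_set hs1) (hi.mono_set hs2),
    ← intervalIntegral.integral_add_adjacent_intervals (hhi.mono_set hs1) (hhi.mono_set hs2)]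
  have e1 : ∫ x in (0 : ℝ)..c, wt l θ x * h x = ∫ x in (0 : ℝ)..c, h x := by
    apply intervalIntegral.integral_congr_ae
    refine Eventually.of_forall fun x hx => ?_
    rw [Set.uIoc_of_le hc0] at hx
    have : x ≤ θ := hx.2.trans (min_le_left _ _)
    simp [wt, this]
  have e2 : ∫ x in c..B, wt l θ x * h x = l * ∫ x in c..B, h x := by
    rw [← intervalIntegral.integral_const_mul]
    apply intervalIntegral.integral_congr_ae
    refine Eventually.of_forall fun x hx => ?_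
    rw [Set.uIoc_of_le hcB] at hx
    have hxθ : ¬ x ≤ θ := by
      intro hle
      rcases min_choice θ B with h2 | h2
      · rw [hc, h2] at hx; exact absurd hle (not_le.2 hx.1)
      · rw [hc, h2] at hx; exact absurd hx.2 (not_le.2 hx.1)
    simp [wt, hxθ]
  rw [e1, e2]
  ring

/-- The concentrated part. -/
lemma conc (l B σ : ℝ) (h0 : 0 < l) (h1 : l ≤ 1) (h : ℝ → ℝ) (hB : 0 < B)
    (hB1 : B ≤ 1) (hB2 : B ≠ 1 / 2) (hh : ContinuousOn h (Set.Icc 0 1)) :
    Tendsto (fun t : ℝ => ((∫ x in (0 : ℝ)..B, wt l (th (σ * t)) x * h x) -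
      ∫ x in (0 : ℝ)..B, wt l (1 / 2) x * h x) / t) (𝓝[>] 0)
      (𝓝 (if 1 / 2 < B then σ * (1 - l) / 4 * h (1 / 2) else 0)) := by
  have hsm : ∀ᶠ t : ℝ in 𝓝[>] 0, 0 < t ∧ t ≤ 1 / 2 := by
    filter_upwards [Ioc_mem_nhdsGT (show (0 : ℝ) < 1 / 2 by norm_num)] with t ht
    exact ht
  have hth : Tendsto (fun t : ℝ => th (σ * t)) (𝓝[>] 0) (𝓝 (1 / 2)) := by
    have h2 : ContinuousAt (fun t : ℝ => th (σ * t)) 0 := by
      apply ContinuousAt.comp (g := th)
      · rw [mul_zero]; exact th_deriv.continuousAt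
      · fun_prop
    have h3 := h2.tendsto
    simp only [mul_zero] at h3
    have h4 : th 0 = 1 / 2 := by simp [th]
    rw [h4] at h3
    exact h3.mono_left nhdsWithin_le_nhds
  have hthpos : ∀ᶠ t : ℝ in 𝓝[>] 0, 0 < th (σ * t) :=
    hth.eventually (lt_mem_nhds (by norm_num))
  by_cases hc : 1 / 2 < B
  · rw [if_pos hc]
    have hder : HasDerivAt (fun u => ∫ x in (0 : ℝ)..u, h x) (h (1 / 2)) (1 / 2) := by
      apply intervalIntegral.integral_hasDerivAt_right
      · apply ContinuousOn.intervalIntegrable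
        rw [Set.uIcc_of_le (by norm_num)]
        exact hh.mono (Set.Icc_subset_Icc_right (by norm_num))
      · exact (hh.mono Set.Ioo_subset_Icc_self).stronglyMeasurableAtFilter isOpen_Ioo _
          ⟨by norm_num, by norm_num⟩
      · exact hh.continuousAt (Icc_mem_nhds (by norm_num) (by norm_num))
    have hin : HasDerivAt (fun t : ℝ => th (σ * t)) (1 / 4 * σ) 0 := by
      have h2 : HasDerivAt (fun t : ℝ => σ * t) σ 0 := by
        simpa using (hasDerivAt_id (0 : ℝ)).const_mul σ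
      have h3 : HasDerivAt th (1 / 4) (σ * 0) := by rw [mul_zero]; exact th_deriv
      exact HasDerivAt.comp (h₂ := th) 0 h3 h2
    have h0t : th (σ * 0) = 1 / 2 := by simp [th]
    have hcomp : HasDerivAt (fun t : ℝ => ∫ x in (0 : ℝ)..(th (σ * t)), h x)
        (h (1 / 2) * (1 / 4 * σ)) 0 := by
      have h3 : HasDerivAt (fun u => ∫ x in (0 : ℝ)..u, h x) (h (1 / 2)) (th (σ * 0)) := by
        rw [h0t]; exact hder
      exact HasDerivAt.comp (h₂ := fun u => ∫ x in (0 : ℝ)..u, h x) 0 h3 hin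
    have hsl := (hcomp.tendsto_slope_zero_right).const_mul (1 - l)
    rw [show (1 - l) * (h (1 / 2) * (1 / 4 * σ)) = σ * (1 - l) / 4 * h (1 / 2) by ring] at hsl
    refine hsl.congr' ?_
    have hlt : ∀ᶠ t : ℝ in 𝓝[>] 0, th (σ * t) < B := hth.eventually (gt_mem_nhds hc)
    filter_upwards [hsm, hthpos, hlt] with t ht hp hlt
    rw [wt_split l _ B h0 h1 h hp.le hB.le hB1 hh,
      wt_split l _ B h0 h1 h (by norm_num) hB.le hB1 hh, min_eq_left hlt.le, min_eq_left hc.le,
      zero_add, h0t, smul_eq_mul]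
    ring
  · rw [if_neg hc]
    have hc2 : B < 1 / 2 := lt_of_le_of_ne (not_lt.1 hc) hB2
    refine tendsto_const_nhds.congr' ?_
    have hgt : ∀ᶠ t : ℝ in 𝓝[>] 0, B < th (σ * t) := hth.eventually (lt_mem_nhds hc2)
    filter_upwards [hsm, hthpos, hgt] with t ht hp hgt
    rw [wt_split l _ B h0 h1 h hp.le hB.le hB1 hh,
      wt_split l _ B h0 h1 h (by norm_num) hB.le hB1 hh, min_eq_right hgt.le, min_eq_right hc2.le,
      sub_self, zero_div]

theorem lim (hT : TrcStmt) (hL : LipStmt) (hC : CasStmt) : LimStmt := by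
  intro G s l hS h0 h1 L
  have hs := hS.pm
  induction L with
  | nil =>
    intro b _
    simp [ZR, KR]
  | cons v L ih =>
    intro b hb
    have hbv := hb v List.mem_cons_self
    have hbL : Good L b := fun u hu => hb u (List.mem_cons_of_mem _ hu)
    have hbI : In01 L b := fun u hu => ⟨(hbL u hu).1.le, (hbL u hu).2.1⟩
    have hbI' : In01 (v :: L) b := fun u hu => ⟨(hb u hu).1.le, (hb u hu).2.1⟩
    obtain ⟨hB0, hB1, hB2⟩ := hbv
    -- the functions
    set Z : ℝ → ℝ → ℝ := fun t x => ZR G l L (gt s t (cut G v (1 - x) b)) with hZ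
    set Z0 : ℝ → ℝ := fun x => ZR G l L (cut G v (1 - x) b) with hZ0
    have hcI : ∀ x ∈ Set.Icc (0 : ℝ) 1, In01 L (cut G v (1 - x) b) :=
      fun x hx => cut_in G v L b x hx.2 hbI
    have hZc : ∀ t, 0 ≤ t → t ≤ 1 → ContinuousOn (Z t) (Set.Icc 0 1) := fun t ht0 ht1 =>
      contZ hL hC G l h0 h1 L _ _ (fun u _ => (gt_cut_cont s t G v b u).continuousOn)
        fun x hx => gt_in s hs t L _ ht0 ht1 (hcI x hx)
    have hZ0c : ContinuousOn Z0 (Set.Icc 0 1) :=
      contZ hL hC G l h0 h1 L _ _ (fun u _ => (cut_cont G v b u).continuousOn) hcI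
    have hZb : ∀ t, 0 ≤ t → t ≤ 1 → ∀ x ∈ Set.Icc (0 : ℝ) 1, |Z t x| ≤ 1 :=
      fun t ht0 ht1 x hx =>
      (lipR hL hC G l h0 h1 L _ _ (gt_in s hs t L _ ht0 ht1 (hcI x hx))
        (gt_in s hs t L _ ht0 ht1 (hcI x hx))).1
    have hq : ∀ t, 0 ≤ t → t ≤ 1 → ∀ x ∈ Set.Icc (0 : ℝ) 1, |Z t x - Z0 x| ≤ L.length * t :=
      fun t ht0 ht1 x hx => quot_bd hL hC G s hs l h0 h1 t L _ ht0 ht1 (hcI x hx)
    have hsm : ∀ᶠ t : ℝ in 𝓝[>] 0, 0 < t ∧ t ≤ 1 / 2 := by
      filter_upwards [Ioc_mem_nhdsGT (show (0 : ℝ) < 1 / 2 by norm_num)] with t ht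
      exact ht
    have hτ : ∀ t, 0 < t → t ≤ 1 / 2 → |s v * t| ≤ 1 / 2 := by
      intro t ht ht1
      rcases hs v with h | h <;> rw [h]
      · rw [one_mul, abs_of_pos ht]; exact ht1
      · rw [neg_one_mul, abs_neg, abs_of_pos ht]; exact ht1
    have hpsi : ∀ t, 0 < t → t ≤ 1 / 2 → ∀ x ∈ Set.Icc (0 : ℝ) 1,
        psiR l (x - s v * t * (x * (1 - x))) = wt l (th (s v * t)) x := by
      intro t ht ht1 x hx
      have := th_iff (s v * t) (hτ t ht ht1) x hx.1 hx.2
      unfold psiR wt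
      by_cases hxt : x ≤ th (s v * t)
      · rw [if_pos hxt, if_pos (this.2 hxt)]
      · rw [if_neg hxt, if_neg (fun h => hxt (this.1 h))]
    have hIc : ∀ x, x ∈ Set.uIoc (0 : ℝ) (b v) → x ∈ Set.Icc (0 : ℝ) 1 := by
      intro x hx
      rw [Set.uIoc_of_le hB0.le] at hx
      exact ⟨hx.1.le, hx.2.trans hB1⟩
    -- the regular part
    set F : ℝ → ℝ → ℝ := fun t x => wt l (th (s v * t)) x *
      (s v * (2 * x - 1) * Z t x + (Z t x - Z0 x) / t) with hF
    have hFc : ∀ t, 0 < t → t ≤ 1 / 2 →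
        ContinuousOn (fun x => s v * (2 * x - 1) * Z t x + (Z t x - Z0 x) / t)
          (Set.Icc 0 1) := by
      intro t ht ht1
      have h2 := hZc t ht.le (by linarith)
      refine ContinuousOn.add (ContinuousOn.mul ?_ h2) ((h2.sub hZ0c).div_const t)
      fun_prop
    have hF1 : Tendsto (fun t => ∫ x in (0 : ℝ)..(b v), F t x) (𝓝[>] 0)
        (𝓝 (∫ x in (0 : ℝ)..(b v), psiR l x *
          (s v * (2 * x - 1) * Z0 x + KR G s l L (cut G v (1 - x) b)))) := by
      apply intervalIntegral.tendsto_integral_filter_of_dominated_convergence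
        (fun _ => 1 + (L.length : ℝ))
      · filter_upwards [hsm] with t ht
        have h2 := hFc t ht.1 ht.2
        refine AEStronglyMeasurable.mul (wt_meas _ _).aestronglyMeasurable ?_
        rw [Set.uIoc_of_le hB0.le]
        refine ContinuousOn.aestronglyMeasurable (h2.mono ?_) measurableSet_Ioc
        intro x hx
        exact ⟨hx.1.le, hx.2.trans hB1⟩
      · filter_upwards [hsm] with t ht
        refine Eventually.of_forall fun x hx => ?_
        have hx1 := hIc x hx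
        rw [norm_mul]
        refine (mul_le_mul (wt_bd l _ x h0 h1) le_rfl (norm_nonneg _) zero_le_one).trans ?_
        rw [one_mul]
        refine (norm_add_le _ _).trans (add_le_add ?_ ?_)
        · rw [norm_mul, norm_mul]
          have e1 : ‖s v‖ = 1 := by
            rcases hs v with h | h <;> rw [h] <;> simp
          have e2 : ‖2 * x - 1‖ ≤ 1 := by
            rw [Real.norm_eq_abs, abs_le]
            constructor <;> linarith [hx1.1, hx1.2]
          have e3 : ‖Z t x‖ ≤ 1 := hZb t ht.1.le (by linarith [ht.2]) x hx1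
          rw [e1, one_mul]
          calc ‖2 * x - 1‖ * ‖Z t x‖ ≤ 1 * 1 :=
                mul_le_mul e2 e3 (norm_nonneg _) zero_le_one
            _ = 1 := one_mul 1
        · rw [norm_div, Real.norm_eq_abs, Real.norm_eq_abs, abs_of_pos ht.1,
            div_le_iff₀ ht.1]
          exact hq t ht.1.le (by linarith [ht.2]) x hx1
      · exact intervalIntegrable_const
      · have hne1 : ∀ᵐ x : ℝ, x ≠ 1 / 2 := by
          rw [ae_iff]; simp
        have hne2 : ∀ᵐ x : ℝ, x ≠ 1 := by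
          rw [ae_iff]; simp
        filter_upwards [hne1, hne2] with x hx1 hx2 hx
        have hx01 := hIc x hx
        have hxlt : x < 1 := lt_of_le_of_ne hx01.2 hx2
        have hg : Good L (cut G v (1 - x) b) := cut_good G v L b x hxlt hx1 hbL
        have hlim := ih (cut G v (1 - x) b) hg
        have hZt : Tendsto (fun t => Z t x) (𝓝[>] 0) (𝓝 (Z0 x)) := by
          have h2 : Tendsto (fun t : ℝ => (L.length : ℝ) * t) (𝓝[>] 0) (𝓝 0) := by
            have : Tendsto (fun t : ℝ => (L.length : ℝ) * t) (𝓝 0) (𝓝 ((L.length : ℝ) * 0)) :=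
              tendsto_const_nhds.mul tendsto_id
            rw [mul_zero] at this
            exact this.mono_left nhdsWithin_le_nhds
          refine tendsto_iff_dist_tendsto_zero.2 ?_
          refine squeeze_zero' (Eventually.of_forall fun _ => dist_nonneg) ?_ h2
          filter_upwards [hsm] with t ht
          rw [Real.dist_eq]
          exact hq t ht.1.le (by linarith [ht.2]) x hx01
        have hth : Tendsto (fun t : ℝ => th (s v * t)) (𝓝[>] 0) (𝓝 (1 / 2)) := by
          have h2 : ContinuousAt (fun t : ℝ => th (s v * t)) 0 := by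
            apply ContinuousAt.comp (g := th)
            · rw [mul_zero]; exact th_deriv.continuousAt
            · fun_prop
          have h3 := h2.tendsto
          simp only [mul_zero] at h3
          have h4 : th 0 = 1 / 2 := by simp [th]
          rw [h4] at h3
          exact h3.mono_left nhdsWithin_le_nhds
        have hw : Tendsto (fun t : ℝ => wt l (th (s v * t)) x) (𝓝[>] 0) (𝓝 (psiR l x)) := by
          refine tendsto_const_nhds.congr' ?_
          rcases lt_or_gt_of_ne hx1 with hlt | hgt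
          · filter_upwards [hth.eventually (lt_mem_nhds hlt)] with t ht
            unfold wt psiR
            rw [if_pos ht.le, if_pos hlt.le]
          · filter_upwards [hth.eventually (gt_mem_nhds hgt)] with t ht
            unfold wt psiR
            rw [if_neg (not_le.2 ht), if_neg (not_le.2 hgt)]
        exact hw.mul ((tendsto_const_nhds.mul hZt).add hlim)
    have hF2 := conc l (b v) (s v) h0 h1 Z0 hB0 hB1 hB2 hZ0c
    have hsum := hF1.add hF2
    have hK : KR G s l (v :: L) b = (∫ x in (0 : ℝ)..(b v), psiR l x *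
          (s v * (2 * x - 1) * Z0 x + KR G s l L (cut G v (1 - x) b))) +
        (if 1 / 2 < b v then s v * (1 - l) / 4 * Z0 (1 / 2) else 0) := by
      simp only [KR, hZ0]
      rw [show (1 : ℝ) - 1 / 2 = 1 / 2 by norm_num]
    rw [hK]
    refine hsum.congr' ?_
    filter_upwards [hsm] with t ht
    obtain ⟨ht0, ht1⟩ := ht
    have e1 : ZR G l (v :: L) (gt s t b) = ∫ x in (0 : ℝ)..(b v),
        (t * F t x + wt l (th (s v * t)) x * Z0 x) := by
      rw [hT G s l t hS ht0.le ht1 h0 h1 v L b hbI']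
      apply intervalIntegral.integral_congr_ae
      refine Eventually.of_forall fun x hx => ?_
      rw [hpsi t ht0 ht1 x (hIc x hx)]
      simp only [hF, hZ, hZ0]
      field_simp
      ring
    have e2 : ZR G l (v :: L) b = ∫ x in (0 : ℝ)..(b v), wt l (1 / 2) x * Z0 x := rfl
    have i1 : IntervalIntegrable (fun x => t * F t x) volume 0 (b v) :=
      (wt_int l _ (b v) h0 h1 _ hB0.le hB1 (hFc t ht0 ht1)).const_mul t
    have i2 : IntervalIntegrable (fun x => wt l (th (s v * t)) x * Z0 x) volume 0 (b v) :=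
      wt_int l _ (b v) h0 h1 _ hB0.le hB1 hZ0c
    rw [e1, e2, intervalIntegral.integral_add i1 i2, intervalIntegral.integral_const_mul]
    field_simp
    ring

end Pool.Agent.Helper77.BO
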