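import Pool.Agent.Helper92.BO.GoalsF
import Pool.Agent.Helper38.FR.PTF

/-!
# BO-PTN: the logarithmic coefficients in polynomial time
-/

namespace Pool.Agent.Helper77.BO

open Pool.Agent.Helper81.CC Pool.Agent.Bin Pool.Agent.Helper92.VP Pool.Agent.Helper92.FR
open Pool.Agent.Helper92.BO Pool.Agent.Helper38.FR

lemma mu_foldl_prod (l : List Qn) : ∀ s : Qn,
    Qn.mu (l.foldl Qn.add s) ≤ Qn.mu s * (l.map Qn.mu).prod := by
  induction l with
  | nil => intro s; simp
  | cons x l ih =>
    intro s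
    rw [List.foldl_cons, List.map_cons, List.prod_cons, ← mul_assoc]
    exact (ih _).trans (Nat.mul_le_mul_right _ (Qn.mu_add s x))

lemma mu_zero : Qn.mu Qn.zero = 1 := rfl

lemma mu_sum_prod (l : List Qn) : Qn.mu (Qn.sum l) ≤ (l.map Qn.mu).prod := by
  refine (mu_foldl_prod l Qn.zero).trans ?_
  rw [mu_zero, one_mul]

lemma mu_getD (y : List Qn) (i : ℕ) : Qn.mu (y.getD i Qn.zero) ≤ 2 ^ (sz y) := by
  rw [List.getD_eq_getElem?_getD]
  rcases h : y[i]? with _ | x
  · rw [Option.getD_none, mu_zero]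
    exact Nat.one_le_two_pow
  · rw [Option.getD_some]
    refine (Qn.mu_le x).trans (Nat.pow_le_pow_right (by norm_num) ?_)
    exact sz_le_of_mem (List.mem_of_getElem? h)

lemma sum_pow_lt (t : ℕ) : ∑ k ∈ Finset.range t, 2 ^ (t - 1 - k) = 2 ^ t - 1 := by
  rw [Finset.sum_range_reflect (fun k => 2 ^ k) t, Nat.geomSum_eq (le_refl 2) t]
  simp

lemma prod_list_range (f : ℕ → ℕ) (t : ℕ) :
    ((List.range t).map f).prod = ∏ k ∈ Finset.range t, f k := by
  induction t with
  | zero => simp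
  | succ t ih => rw [List.prod_range_succ, Finset.prod_range_succ, ih]

/-- One step. -/
lemma mu_nsx (y acc : List Qn) (A m t : ℕ) (ht : t < m) (hA : (m + 1) * (sz y + 1) ≤ A)
    (hacc : ∀ j < t, Qn.mu (acc.getD j Qn.zero) ≤ 2 ^ (A * 2 ^ j)) :
    Qn.mu (nsx y acc t) ≤ 2 ^ (A * 2 ^ t) := by
  unfold nsx
  have e1 : Qn.mu (qNat (t + 1)) ≤ 2 ^ (t + 1) := by
    have h1 : Qn.mu (qNat (t + 1)) = t + 1 + 1 := by
      unfold qNat Qn.ofBN Qn.mu
      simp
    rw [h1]
    exact Nat.lt_two_pow_self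
  have e2 := mu_getD y (t + 1)
  have e3 : ((((List.range t).map fun k => Qn.mul (y.getD (k + 1) Qn.zero)
      (acc.getD (t - 1 - k) Qn.zero)).map Qn.mu).prod) ≤
      2 ^ (t * sz y + A * (2 ^ t - 1)) := by
    rw [List.map_map, prod_list_range]
    calc ∏ k ∈ Finset.range t, (Qn.mu ∘ fun k => Qn.mul (y.getD (k + 1) Qn.zero)
          (acc.getD (t - 1 - k) Qn.zero)) k
        ≤ ∏ k ∈ Finset.range t, 2 ^ (sz y + A * 2 ^ (t - 1 - k)) := by
          refine Finset.prod_le_prod' fun k hk => ?_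
          have hk' := Finset.mem_range.1 hk
          refine (Qn.mu_mul _ _).trans ?_
          rw [pow_add]
          exact Nat.mul_le_mul (mu_getD y (k + 1)) (hacc (t - 1 - k) (by omega))
      _ = 2 ^ (t * sz y + A * (2 ^ t - 1)) := by
          rw [Finset.prod_pow_eq_pow_sum, Finset.sum_add_distrib, Finset.sum_const,
            Finset.card_range, smul_eq_mul, ← Finset.mul_sum, sum_pow_lt]
  refine (Qn.mu_sub _ _).trans ?_
  calc Qn.mu (Qn.mul (qNat (t + 1)) (y.getD (t + 1) Qn.zero)) *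
        Qn.mu (Qn.sum ((List.range t).map fun k => Qn.mul (y.getD (k + 1) Qn.zero)
          (acc.getD (t - 1 - k) Qn.zero)))
      ≤ (2 ^ (t + 1) * 2 ^ sz y) * 2 ^ (t * sz y + A * (2 ^ t - 1)) := by
        refine Nat.mul_le_mul ((Qn.mu_mul _ _).trans (Nat.mul_le_mul e1 e2)) ?_
        exact (mu_sum_prod _).trans e3
    _ = 2 ^ (t + 1 + sz y + (t * sz y + A * (2 ^ t - 1))) := by
        rw [← pow_add, ← pow_add]
    _ ≤ 2 ^ (A * 2 ^ t) := by
        apply Nat.pow_le_pow_right (by norm_num)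
        have h1 : 1 ≤ 2 ^ t := Nat.one_le_two_pow
        have h2 : A * 2 ^ t = A * (2 ^ t - 1) + A := by
          obtain ⟨c, hc⟩ : ∃ c, 2 ^ t = c + 1 := ⟨2 ^ t - 1, by omega⟩
          rw [hc, Nat.add_sub_cancel]
          ring
        have h3 : (t + 1) * (sz y + 1) ≤ (m + 1) * (sz y + 1) :=
          Nat.mul_le_mul_right _ (by omega)
        have h4 : (t + 1) * (sz y + 1) = t + 1 + sz y + t * sz y := by ring
        omega

lemma nsQ_succ (y : List Qn) (k : ℕ) : nsQ y (k + 1) = nsQ y k ++ [nsx y (nsQ y k) k] := by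
  unfold nsQ
  rw [List.range_succ, List.foldl_append]
  rfl

lemma nsQ_length (y : List Qn) (k : ℕ) : (nsQ y k).length = k := by
  induction k with
  | zero => rfl
  | succ k ih => rw [nsQ_succ, List.length_append, ih]; rfl

lemma nsQ_mu (y : List Qn) (A m : ℕ) (hA : (m + 1) * (sz y + 1) ≤ A) :
    ∀ k ≤ m, ∀ j < k, Qn.mu ((nsQ y k).getD j Qn.zero) ≤ 2 ^ (A * 2 ^ j) := by
  intro k
  induction k with
  | zero => intro _ j hj; omega
  | succ k ih =>
    intro hk j hj
    have ih' := ih (by omega)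
    rw [nsQ_succ]
    rcases Nat.lt_or_ge j k with h | h
    · rw [List.getD_append _ _ _ _ (by rw [nsQ_length]; exact h)]
      exact ih' j h
    · have hjk : j = k := by omega
      subst hjk
      rw [List.getD_append_right _ _ _ _ (by rw [nsQ_length]), nsQ_length, Nat.sub_self]
      exact mu_nsx y (nsQ y j) A m j (by omega) hA ih'

lemma sz_list_le (B : ℕ) : ∀ l : List Qn, (∀ x ∈ l, Qn.mu x ≤ 2 ^ B) →
    sz l ≤ 1 + l.length * (12 * B + 6) := by
  intro l
  induction l with
  | nil => intro _; simp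
  | cons x l ih =>
    intro h
    rw [sz_cons, List.length_cons]
    have h1 := ih fun y hy => h y (List.mem_cons_of_mem _ hy)
    have h2 := Qn.sz_le (h x List.mem_cons_self)
    have h3 : (l.length + 1) * (12 * B + 6) = l.length * (12 * B + 6) + (12 * B + 6) := by ring
    omega

lemma nsQ_sz (y : List Qn) (m N k : ℕ) (hk : k ≤ m) (hN : 2 ^ m ≤ N) :
    sz (nsQ y k) ≤ 1 + m * (12 * ((m + 1) * (sz y + 1) * N) + 6) := by
  have h1 : ∀ x ∈ nsQ y k, Qn.mu x ≤ 2 ^ ((m + 1) * (sz y + 1) * N) := by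
    intro x hx
    obtain ⟨j, hj, hjx⟩ := List.getElem_of_mem hx
    rw [nsQ_length] at hj
    have h2 := nsQ_mu y _ m le_rfl k hk j hj
    have h3 : (nsQ y k).getD j Qn.zero = x := by
      rw [List.getD_eq_getElem _ _ (by rw [nsQ_length]; exact hj)]
      exact hjx
    rw [h3] at h2
    refine h2.trans (Nat.pow_le_pow_right (by norm_num) (Nat.mul_le_mul_left _ ?_))
    exact (Nat.pow_le_pow_right (by norm_num) (by omega)).trans hN
  refine (sz_list_le _ _ h1).trans ?_
  rw [nsQ_length]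
  exact Nat.add_le_add_left (Nat.mul_le_mul_right _ hk) 1

theorem ptn : Pool.Agent.Helper92.BO.PtnStmt := by
  intro α _ y m N hy hm hN hmN
  unfold nsQ
  refine PolyTime.foldl_bd (l := fun a => List.range (m a)) (s0 := fun _ => ([] : List Qn))
    (step := fun a acc t => acc ++ [nsx (y a) acc t]) (by fun_prop) (by fun_prop) ?_
    (B := fun a => 1 + m a * (12 * ((m a + 1) * (sz (y a) + 1) * N a) + 6)) ?_ ?_
  · unfold nsx
    fun_prop
  · exact (PBd.const 1).add ((PBd.nat hm).mul (((PBd.const 12).mul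
      ((((PBd.nat hm).add (PBd.const 1)).mul (hy.bd.add (PBd.const 1))).mul
        (PBd.nat hN))).add (PBd.const 6)))
  · intro a l' hl'
    have h1 : l' = List.range l'.length := by
      have h2 := List.prefix_iff_eq_take.1 hl'
      have h3 := hl'.length_le
      rw [List.length_range] at h3
      conv_lhs => rw [h2]
      rw [List.take_range, min_eq_left h3]
    have h3 := hl'.length_le
    rw [List.length_range] at h3
    rw [h1]
    exact nsQ_sz (y a) (m a) (N a) l'.length h3 (hmN a)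

end Pool.Agent.Helper77.BO
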