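import Pool.Agent.Helper92.BO.GoalsD

/-!
# BO-RTL: the truncated logarithm of a polynomial without zeros in a disc
-/

namespace Pool.Agent.Helper77.BO

open Finset
open Pool.Agent.Helper92.BO

/-- The truncated logarithm of `1 - a X`. -/
noncomputable def tlog (a : ℂ) (m : ℕ) : Polynomial ℂ :=
  ∑ j ∈ range m, Polynomial.monomial (j + 1) (-(a ^ (j + 1) / (j + 1)))

lemma tlog_coeff_zero (a : ℂ) (m : ℕ) : (tlog a m).coeff 0 = 0 := by
  unfold tlog
  rw [Polynomial.finsetSum_coeff]
  refine Finset.sum_eq_zero fun j _ => ?_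
  rw [Polynomial.coeff_monomial, if_neg (Nat.succ_ne_zero j)]

lemma tlog_deriv (a : ℂ) (m : ℕ) :
    (tlog a m).derivative = - Polynomial.C a * ∑ j ∈ range m, (Polynomial.C a * Polynomial.X) ^ j := by
  unfold tlog
  rw [Polynomial.derivative_sum, Finset.mul_sum]
  refine Finset.sum_congr rfl fun j _ => ?_
  rw [Polynomial.derivative_monomial, mul_pow, ← Polynomial.C_pow, ← Polynomial.C_neg,
    ← mul_assoc, ← Polynomial.C_mul, Polynomial.C_mul_X_pow_eq_monomial]
  have h : ((j : ℂ) + 1) ≠ 0 := Nat.cast_add_one_ne_zero j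
  congr 1
  push_cast
  field_simp
  ring

lemma tlog_dvd (a : ℂ) (m : ℕ) : (Polynomial.X : Polynomial ℂ) ^ m ∣
    (1 - Polynomial.C a * Polynomial.X) * (tlog a m).derivative + Polynomial.C a := by
  rw [tlog_deriv]
  have h := mul_neg_geom_sum (Polynomial.C a * Polynomial.X : Polynomial ℂ) m
  refine ⟨Polynomial.C a * Polynomial.C a ^ m, ?_⟩
  have h2 : (1 - Polynomial.C a * Polynomial.X) *
      (- Polynomial.C a * ∑ j ∈ range m, (Polynomial.C a * Polynomial.X) ^ j) =
      - Polynomial.C a * (1 - (Polynomial.C a * Polynomial.X) ^ m) := by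
    rw [← h]; ring
  rw [h2, mul_pow]
  ring

lemma tlog_sum (a : ℂ) (m : ℕ) : ∑ j ∈ range (m + 1), (tlog a m).coeff j =
    Complex.logTaylor (m + 1) (-a) := by
  unfold tlog Complex.logTaylor
  refine Finset.sum_congr rfl fun j hj => ?_
  rw [Polynomial.finsetSum_coeff]
  rcases Nat.eq_zero_or_pos j with h0 | h0
  · subst h0
    simp [Polynomial.coeff_monomial]
  · obtain ⟨i, rfl⟩ : ∃ i, j = i + 1 := ⟨j - 1, by omega⟩
    have hi : i ∈ range m := by
      rw [mem_range] at hj ⊢; omega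
    rw [Finset.sum_eq_single_of_mem i hi]
    · rw [Polynomial.coeff_monomial, if_pos rfl]
      push_cast
      have h3 : (-1 : ℂ) ^ (i + 1 + 1) * (-a) ^ (i + 1) = - a ^ (i + 1) := by
        rw [neg_pow a (i + 1), ← mul_assoc, ← pow_add, show i + 1 + 1 + (i + 1) = 2 * (i + 1) + 1 by ring,
          pow_succ, pow_mul]
        simp
      rw [h3, neg_div]
    · intro k _ hk
      rw [Polynomial.coeff_monomial, if_neg (by omega)]

/-- One linear factor. -/
lemma factor (β : ℝ) (m : ℕ) (hβ : 1 < β) (r : ℂ) (hr : β < ‖r‖) : ∃ e : ℂ,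
    1 - r⁻¹ = Complex.exp (∑ j ∈ range (m + 1), (tlog r⁻¹ m).coeff j + e) ∧
    ‖e‖ ≤ (1 / β) ^ m / (β - 1) := by
  have hβ0 : 0 < β := by linarith
  have hr0 : 0 < ‖r‖ := by linarith
  have hz : ‖-r⁻¹‖ < 1 / β := by
    rw [norm_neg, norm_inv, one_div]
    exact (inv_lt_inv₀ hr0 hβ0).2 hr
  have hβ1 : 1 / β < 1 := by
    rw [div_lt_one hβ0]; exact hβ
  have hz1 : ‖-r⁻¹‖ < 1 := hz.trans hβ1
  have hT := Complex.norm_log_sub_logTaylor_le m hz1
  refine ⟨Complex.log (1 + -r⁻¹) - Complex.logTaylor (m + 1) (-r⁻¹), ?_, ?_⟩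
  · rw [tlog_sum, add_sub_cancel, Complex.exp_log]
    · ring
    · intro h
      have h2 : -r⁻¹ = -1 := by linear_combination h
      rw [h2] at hz1
      simp at hz1
  · refine hT.trans ?_
    have h1 : ‖-r⁻¹‖ ^ (m + 1) ≤ (1 / β) ^ (m + 1) :=
      pow_le_pow_left₀ (norm_nonneg _) hz.le _
    have h2 : (1 - ‖-r⁻¹‖)⁻¹ ≤ (1 - 1 / β)⁻¹ := by
      apply inv_anti₀ <;> linarith
    have h3 : 0 ≤ (1 - ‖-r⁻¹‖)⁻¹ := by
      rw [inv_nonneg]; linarith
    calc ‖-r⁻¹‖ ^ (m + 1) * (1 - ‖-r⁻¹‖)⁻¹ / (m + 1)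
        ≤ ‖-r⁻¹‖ ^ (m + 1) * (1 - ‖-r⁻¹‖)⁻¹ := by
          apply div_le_self (by positivity)
          have : (0 : ℝ) ≤ m := Nat.cast_nonneg m
          linarith
      _ ≤ (1 / β) ^ (m + 1) * (1 - 1 / β)⁻¹ := mul_le_mul h1 h2 h3 (by positivity)
      _ = (1 / β) ^ m / (β - 1) := by
          have h4 : β - 1 ≠ 0 := by linarith
          have h5 : β ≠ 0 := by linarith
          have h6 : 1 - 1 / β ≠ 0 := by
            intro h; linarith
          field_simp
          rw [pow_succ]
          field_simp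

lemma main (β : ℝ) (m : ℕ) (hβ : 1 < β) : ∀ (n : ℕ) (q : Polynomial ℂ), q.natDegree = n →
    q.coeff 0 = 1 → (∀ w : ℂ, ‖w‖ ≤ β → q.eval w ≠ 0) →
    ∃ (T : Polynomial ℂ) (e : ℂ), T.coeff 0 = 0 ∧
      (Polynomial.X ^ m ∣ q * T.derivative - q.derivative) ∧
      q.eval 1 = Complex.exp (∑ j ∈ range (m + 1), T.coeff j + e) ∧
      ‖e‖ ≤ n * ((1 / β) ^ m / (β - 1)) := by
  intro n
  induction n with
  | zero =>
    intro q hq h0 _
    have h1 : q = 1 := by
      rw [Polynomial.eq_C_of_natDegree_eq_zero hq, h0, Polynomial.C_1]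
    subst h1
    exact ⟨0, 0, by simp, by simp, by simp, by simp⟩
  | succ n ih =>
    intro q hq h0 hw
    have hdeg : q.degree ≠ 0 := by
      intro h
      have h2 : q.natDegree = 0 := Polynomial.natDegree_eq_of_degree_eq_some h
      omega
    obtain ⟨r, hr⟩ := IsAlgClosed.exists_root q hdeg
    have hrβ : β < ‖r‖ := by
      by_contra hc
      exact hw r (not_lt.1 hc) hr
    have hr0 : r ≠ 0 := by
      intro h
      rw [h, norm_zero] at hrβ
      linarith
    obtain ⟨p, hp⟩ := Polynomial.dvd_iff_isRoot.2 hr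
    set q1 : Polynomial ℂ := - Polynomial.C r * p with hq1
    have hfac : q = (1 - Polynomial.C r⁻¹ * Polynomial.X) * q1 := by
      rw [hp, hq1]
      have : (Polynomial.C r⁻¹ : Polynomial ℂ) * Polynomial.C r = 1 := by
        rw [← Polynomial.C_mul, inv_mul_cancel₀ hr0, Polynomial.C_1]
      linear_combination (- Polynomial.X * p) * this
    have hq0 : q ≠ 0 := by
      intro h; rw [h] at h0; simp at h0
    have hp0 : p ≠ 0 := by
      intro h; rw [h, mul_zero] at hp; exact hq0 hp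
    have hq1d : q1.natDegree = n := by
      have e1 : q.natDegree = 1 + p.natDegree := by
        rw [hp, Polynomial.natDegree_mul (Polynomial.X_sub_C_ne_zero r) hp0,
          Polynomial.natDegree_X_sub_C]
      have e2 : q1.natDegree = p.natDegree := by
        rw [hq1, ← Polynomial.C_neg, Polynomial.natDegree_C_mul (neg_ne_zero.2 hr0)]
      omega
    have hq1c : q1.coeff 0 = 1 := by
      have e1 : q.coeff 0 = q1.coeff 0 := by
        rw [hfac, Polynomial.mul_coeff_zero]
        simp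
      rw [← e1, h0]
    have hq1w : ∀ w : ℂ, ‖w‖ ≤ β → q1.eval w ≠ 0 := by
      intro w hwb h
      apply hw w hwb
      rw [hfac, Polynomial.eval_mul, h, mul_zero]
    obtain ⟨T1, e1, hT1, hd1, hx1, he1⟩ := ih q1 hq1d hq1c hq1w
    obtain ⟨e0, hx0, he0⟩ := factor β m hβ r hrβ
    refine ⟨tlog r⁻¹ m + T1, e0 + e1, ?_, ?_, ?_, ?_⟩
    · rw [Polynomial.coeff_add, tlog_coeff_zero, hT1, add_zero]
    · have hder : q.derivative = - Polynomial.C r⁻¹ * q1 +
          (1 - Polynomial.C r⁻¹ * Polynomial.X) * q1.derivative := by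
        rw [hfac, Polynomial.derivative_mul]
        simp
      have hsplit : q * (tlog r⁻¹ m + T1).derivative - q.derivative =
          q1 * ((1 - Polynomial.C r⁻¹ * Polynomial.X) * (tlog r⁻¹ m).derivative +
            Polynomial.C r⁻¹) +
          (1 - Polynomial.C r⁻¹ * Polynomial.X) * (q1 * T1.derivative - q1.derivative) := by
        rw [hder, Polynomial.derivative_add]
        conv_lhs => rw [hfac]
        ring
      rw [hsplit]
      exact dvd_add (Dvd.dvd.mul_left (tlog_dvd r⁻¹ m) _) (Dvd.dvd.mul_left hd1 _)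
    · have e2 : q.eval 1 = (1 - r⁻¹) * q1.eval 1 := by
        conv_lhs => rw [hfac]
        simp
      rw [e2, hx0, hx1, ← Complex.exp_add]
      congr 1
      simp only [Polynomial.coeff_add, Finset.sum_add_distrib]
      ring
    · refine (norm_add_le _ _).trans ?_
      push_cast
      linarith

theorem rtl : RtlStmt := by
  intro q H β m hβ h0 hw hH hdvd
  obtain ⟨T, e, hT, hd, hx, he⟩ := main β m hβ q.natDegree q rfl h0 hw
  refine ⟨e, ?_, he⟩
  rw [hx]
  have h1 : (Polynomial.X : Polynomial ℂ) ^ m ∣ q * (H - T).derivative := by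
    have : q * (H - T).derivative =
        (q * H.derivative - q.derivative) - (q * T.derivative - q.derivative) := by
      rw [Polynomial.derivative_sub]; ring
    rw [this]
    exact dvd_sub hdvd hd
  have h2 : ¬ (Polynomial.X : Polynomial ℂ) ∣ q := by
    rw [Polynomial.X_dvd_iff, h0]
    exact one_ne_zero
  have h3 := Polynomial.prime_X.pow_dvd_of_dvd_mul_left m h2 h1
  rw [Polynomial.X_pow_dvd_iff] at h3
  have h4 : ∀ j ∈ range (m + 1), T.coeff j = H.coeff j := by
    intro j hj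
    rcases Nat.eq_zero_or_pos j with hj0 | hj0
    · rw [hj0, hT, hH]
    · obtain ⟨i, rfl⟩ : ∃ i, j = i + 1 := ⟨j - 1, by omega⟩
      have h5 := h3 i (by rw [mem_range] at hj; omega)
      rw [Polynomial.coeff_derivative, Polynomial.coeff_sub] at h5
      have h6 : ((i : ℂ) + 1) ≠ 0 := Nat.cast_add_one_ne_zero i
      rcases mul_eq_zero.1 h5 with h7 | h7
      · exact (sub_eq_zero.1 h7).symm
      · exact absurd h7 h6
  rw [Finset.sum_congr rfl h4]

end Pool.Agent.Helper77.BO
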