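import Pool.Agent.Helper92.BO.GoalsE

/-!
# BO-SBL: the list of all sublists
-/

namespace Pool.Agent.Helper77.BO

open Pool.Agent.Helper92.BO

lemma subL_snoc (S : List ℕ) (x : ℕ) :
    subL (S ++ [x]) = subL S ++ (subL S).map fun I => I ++ [x] := by
  unfold subL
  rw [List.foldl_append]
  rfl

lemma subL_nil : subL [] = [[]] := rfl

theorem sbl : SblStmt := by
  intro S
  induction S using List.reverseRecOn with
  | nil =>
    intro _
    rw [subL_nil]
    refine ⟨?_, ?_, ?_, ?_, ?_, ?_⟩
    · intro T hT
      rw [List.mem_singleton] at hT
      rw [hT]
    · intro T hT
      rw [List.mem_singleton]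
      exact List.sublist_nil.1 hT
    · simp
    · simp
    · intro f
      simp
    · intro l1 l2 I h i hi
      have hI : I = [] := by
        have h2 : I ∈ ([[]] : List (List ℕ)) := by
          rw [h]; simp
        exact List.mem_singleton.1 h2
      rw [hI] at hi
      exact absurd hi List.not_mem_nil
  | append_singleton S x ih =>
    intro hnd
    have hS : S.Nodup := (List.nodup_append.1 hnd).1
    have hx : x ∉ S := by
      intro h
      have := (List.nodup_append.1 hnd).2.2 x h x (List.mem_singleton.2 rfl)
      exact this rfl
    obtain ⟨h1, h2, h3, h4, h5, h6⟩ := ih hS
    have hxI : ∀ I ∈ subL S, x ∉ I := fun I hI hxI => hx ((h1 I hI).subset hxI)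
    rw [subL_snoc]
    refine ⟨?_, ?_, ?_, ?_, ?_, ?_⟩
    · intro T hT
      rcases List.mem_append.1 hT with h | h
      · exact (h1 T h).trans (List.sublist_append_left S [x])
      · obtain ⟨I, hI, rfl⟩ := List.mem_map.1 h
        exact (h1 I hI).append (List.Sublist.refl _)
    · intro T hT
      obtain ⟨a, b, rfl, ha, hb⟩ := List.sublist_append_iff.1 hT
      rw [List.mem_append]
      rcases List.sublist_singleton.1 hb with h | h
      · left
        rw [h, List.append_nil]
        exact h2 a ha
      · right
        rw [h]
        exact List.mem_map.2 ⟨a, h2 a ha, rfl⟩
    · rw [List.nodup_append]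
      refine ⟨h3, ?_, ?_⟩
      · refine List.Nodup.map ?_ h3
        intro a b hab
        exact List.append_left_injective [x] hab
      · intro a ha b hb hab
        obtain ⟨I, _, rfl⟩ := List.mem_map.1 hb
        apply hxI a ha
        rw [hab]
        simp
    · rw [List.length_append, List.length_map, h4, List.length_append, List.length_singleton,
        pow_succ]
      ring
    · intro f
      rw [List.map_append, List.sum_append, List.map_map]
      have e1 : (S ++ [x]).toFinset = insert x S.toFinset := by
        ext y
        simp
      rw [e1, Finset.sum_powerset_insert (by rw [List.mem_toFinset]; exact hx), h5 f,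
        ← h5 fun T => f (insert x T)]
      congr 2
      refine List.map_congr_left fun I _ => ?_
      simp only [Function.comp]
      congr 1
      ext y
      simp
    · intro l1 l2 I h i hi
      rcases List.append_eq_append_iff.1 h with ⟨c, hc1, hc2⟩ | ⟨c, hc1, hc2⟩
      · -- l1 = subL S ++ c
        obtain ⟨a1, a2, ha, hb1, hb2⟩ := List.map_eq_append_iff.1 hc2
        obtain ⟨J, a3, ha2, hJ, _⟩ := List.map_eq_cons_iff.1 hb2
        rw [ha2] at ha
        have hJm : J ∈ subL S := by rw [ha]; simp
        rw [hc1, List.mem_append]
        rw [← hJ, List.filter_append]
        by_cases hix : i = x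
        · left
          have e1 : (J.filter fun j => decide (j ≠ i)) = J := by
            rw [List.filter_eq_self]
            intro j hj
            rw [decide_eq_true_eq, hix]
            intro hjx
            rw [hjx] at hj
            exact hxI J hJm hj
          have e2 : ([x].filter fun j => decide (j ≠ i)) = [] := by
            simp [hix]
          rw [e1, e2, List.append_nil]
          exact hJm
        · right
          have e2 : ([x].filter fun j => decide (j ≠ i)) = [x] := by
            simp [Ne.symm hix]
          rw [e2, ← hb1]
          have hiJ : i ∈ J := by
            rw [← hJ, List.mem_append, List.mem_singleton] at hi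
            rcases hi with h | h
            · exact h
            · exact absurd h hix
          exact List.mem_map.2 ⟨_, h6 a1 a3 J ha i hiJ, rfl⟩
      · -- subL S = l1 ++ c
        cases c with
        | nil =>
          rw [List.append_nil] at hc1
          rw [List.nil_append] at hc2
          obtain ⟨J, a3, ha2, hJ, _⟩ := List.map_eq_cons_iff.1 hc2.symm
          have hJm : J ∈ subL S := by rw [ha2]; simp
          rw [← hc1]
          rw [← hJ, List.filter_append]
          by_cases hix : i = x
          · have e1 : (J.filter fun j => decide (j ≠ i)) = J := by
              rw [List.filter_eq_self]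
              intro j hj
              rw [decide_eq_true_eq, hix]
              intro hjx
              rw [hjx] at hj
              exact hxI J hJm hj
            have e2 : ([x].filter fun j => decide (j ≠ i)) = [] := by
              simp [hix]
            rw [e1, e2, List.append_nil]
            exact hJm
          · have hiJ : i ∈ J := by
              rw [← hJ, List.mem_append, List.mem_singleton] at hi
              rcases hi with h | h
              · exact h
              · exact absurd h hix
            have := h6 [] a3 J (by rw [ha2]; rfl) i hiJ
            exact absurd this List.not_mem_nil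
        | cons d c' =>
          rw [List.cons_append, List.cons.injEq] at hc2
          obtain ⟨hd, _⟩ := hc2
          rw [← hd] at hc1
          exact h6 l1 c' I hc1 i hi

end Pool.Agent.Helper77.BO
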