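import Pool.Agent.Helper92.BO.GoalsG

/-!
# Stable set polytopes: the recursion inequality for the potential of a move (`TmsStmt`)
-/

namespace Pool.Agent.Helper77.BO

open MeasureTheory Filter Topology Function Pool.Agent.Helper92.BO

namespace TMS

/-- Iterated interval integrals as an integral over a rectangle. -/
theorem iter_eq {y' y : ℝ} (h1 : 0 ≤ y') (h2 : y' ≤ y) (f : ℝ → ℝ → ℝ) (F : ℝ × ℝ → ℝ)
    (hF : IntegrableOn F (Set.Ioo y' y ×ˢ Set.Ioo 0 y') (volume.prod volume))
    (hf : ∀ x ∈ Set.Ioo y' y, ∀ x' ∈ Set.Ioo 0 y', f x' x = F (x, x')) :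
    (∫ x in y'..y, ∫ x' in (0 : ℝ)..y', f x' x) =
      ∫ p in Set.Ioo y' y ×ˢ Set.Ioo 0 y', F p ∂(volume.prod volume) := by
  rw [intervalIntegral.integral_of_le h2, integral_Ioc_eq_integral_Ioo, setIntegral_prod F hF]
  refine setIntegral_congr_fun measurableSet_Ioo fun x hx => ?_
  change (∫ x' in (0 : ℝ)..y', f x' x) = ∫ x' in Set.Ioo 0 y', F (x, x')
  rw [intervalIntegral.integral_of_le h1, integral_Ioc_eq_integral_Ioo]
  exact setIntegral_congr_fun measurableSet_Ioo fun x' hx' => hf x hx x' hx'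

/-- Products are integrable on the rectangle. -/
theorem prod_int {y' y : ℝ} {g h : ℝ → ℝ} (h1 : 0 ≤ y') (h2 : y' ≤ y)
    (hg : IntegrableOn g (Set.Ioo 0 y)) (hh : IntegrableOn h (Set.Ioo 0 y)) :
    IntegrableOn (fun p : ℝ × ℝ => g p.1 * h p.2) (Set.Ioo y' y ×ˢ Set.Ioo 0 y')
      (volume.prod volume) := by
  have hg' : IntegrableOn g (Set.Ioo y' y) := hg.mono_set (Set.Ioo_subset_Ioo_left h1)
  have hh' : IntegrableOn h (Set.Ioo 0 y') := hh.mono_set (Set.Ioo_subset_Ioo_right h2)
  rw [IntegrableOn, ← Measure.prod_restrict]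
  exact Integrable.mul_prod hg' hh'

/-- The difference of two products of integrals. -/
theorem dif_eq {y' y : ℝ} {g h : ℝ → ℝ} (h1 : 0 ≤ y') (h2 : y' ≤ y)
    (hg : IntegrableOn g (Set.Ioo 0 y)) (hh : IntegrableOn h (Set.Ioo 0 y)) :
    (∫ x in (0 : ℝ)..y', g x) * (∫ x in (0 : ℝ)..y, h x) -
      (∫ x in (0 : ℝ)..y, g x) * (∫ x in (0 : ℝ)..y', h x) =
    ∫ p in Set.Ioo y' y ×ˢ Set.Ioo 0 y', (h p.1 * g p.2 - g p.1 * h p.2)
      ∂(volume.prod volume) := by
  have h02 : (0 : ℝ) ≤ y := h1.trans h2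
  have key : ∀ k : ℝ → ℝ, IntegrableOn k (Set.Ioo 0 y) →
      (∫ x in (0 : ℝ)..y, k x) = (∫ x in Set.Ioo 0 y', k x) + ∫ x in Set.Ioo y' y, k x := by
    intro k hk
    have hk1 : IntervalIntegrable k volume 0 y' := by
      rw [intervalIntegrable_iff_integrableOn_Ioo_of_le h1]
      exact hk.mono_set (Set.Ioo_subset_Ioo_right h2)
    have hk2 : IntervalIntegrable k volume y' y := by
      rw [intervalIntegrable_iff_integrableOn_Ioo_of_le h2]
      exact hk.mono_set (Set.Ioo_subset_Ioo_left h1)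
    rw [← intervalIntegral.integral_add_adjacent_intervals hk1 hk2,
      intervalIntegral.integral_of_le h1, intervalIntegral.integral_of_le h2,
      integral_Ioc_eq_integral_Ioo, integral_Ioc_eq_integral_Ioo]
  have key2 : ∀ k : ℝ → ℝ, (∫ x in (0 : ℝ)..y', k x) = ∫ x in Set.Ioo 0 y', k x := by
    intro k
    rw [intervalIntegral.integral_of_le h1, integral_Ioc_eq_integral_Ioo]
  rw [integral_sub (prod_int h1 h2 hh hg) (prod_int h1 h2 hg hh), setIntegral_prod_mul,
    setIntegral_prod_mul, key g hg, key h hh, key2, key2]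
  ring

/-- Sums over lists. -/
theorem sum_int {α : Type*} [MeasurableSpace α] {μ : Measure α} (M : List ℕ) (c : ℕ → ℝ)
    (D : ℕ → α → ℝ) (hD : ∀ u ∈ M, Integrable (D u) μ) :
    Integrable (fun p => (M.map fun u => c u * D u p).sum) μ ∧
      (∫ p, (M.map fun u => c u * D u p).sum ∂μ) = (M.map fun u => c u * ∫ p, D u p ∂μ).sum := by
  induction M with
  | nil => simp
  | cons u M ih =>
    have hu := (hD u List.mem_cons_self).const_mul (c u)
    obtain ⟨h1, h2⟩ := ih fun w hw => hD w (List.mem_cons_of_mem _ hw)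
    simp only [List.map_cons, List.sum_cons]
    refine ⟨hu.add h1, ?_⟩
    rw [integral_add hu h1, h2, integral_const_mul]

theorem psiR_pos {l : ℝ} (hl : 0 < l) (x : ℝ) : 0 < psiR l x := by
  unfold psiR
  split_ifs
  · exact one_pos
  · exact hl

theorem psiR_le {l : ℝ} (hl : l ≤ 1) (x : ℝ) : psiR l x ≤ 1 := by
  unfold psiR
  split_ifs
  · exact le_rfl
  · exact hl

theorem psiR_meas (l : ℝ) : Measurable (psiR l) :=
  Measurable.ite measurableSet_Iic measurable_const measurable_const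

theorem cut_pos {G : SimpleGraph ℕ} {v : ℕ} {L : List ℕ} {b : ℕ → ℝ} (hb : Pos1 L b) {x : ℝ}
    (hx : x < 1) : Pos1 L (cut G v (1 - x) b) := by
  intro u hu
  obtain ⟨h1, h2⟩ := hb u hu
  unfold cut
  split_ifs
  · exact ⟨lt_min h1 (by linarith), (min_le_left _ _).trans h2⟩
  · exact ⟨h1, h2⟩

/-- The termwise identity. -/
theorem term_eq {A A' w w' z z' β : ℝ} (hA : 0 < A) (hA' : 0 < A') (hw : 0 < w) (hw' : 0 < w')
    (hβ : 0 ≤ β) :
    A * w * (A' * w') * -|β * z / w - β * z' / w'| = -(β * |A * w * (A' * z') - A * z * (A' * w')|)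
    := by
  have e1 : A * w * (A' * z') - A * z * (A' * w') = (A * w * (A' * w')) * -(z / w - z' / w') := by
    field_simp
    ring
  have e2 : β * z / w - β * z' / w' = β * (z / w - z' / w') := by ring
  rw [e1, e2, abs_mul, abs_mul, abs_neg, abs_of_nonneg hβ,
    abs_of_pos (mul_pos (mul_pos hA hw) (mul_pos hA' hw'))]
  ring

open Classical in
/-- The density of `Zd (v :: L) u`. -/
noncomputable def gg (G : SimpleGraph ℕ) (l : ℝ) (L : List ℕ) (v : ℕ) (b : ℕ → ℝ) (u : ℕ)
    (x : ℝ) : ℝ :=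
  psiR l x * (if G.Adj v u ∧ 1 - x < b u then 0 else Zd G l L u (cut G v (1 - x) b))

open Classical in
/-- The terms of `Fc`. -/
noncomputable def ft (G : SimpleGraph ℕ) (l : ℝ) (L : List ℕ) (v : ℕ) (b : ℕ → ℝ) (u : ℕ)
    (s : ℝ) : ℝ :=
  if G.Adj v u ∧ 1 - s < b u then Ph G l L u (cut G v (1 - s) b) else 0

/-- The pointwise identity. -/
theorem pt_eq (hphb : PhbStmt) (hpos : PosStmt) (G : SimpleGraph ℕ) (l : ℝ) (L : List ℕ) (v : ℕ)
    (b : ℕ → ℝ) (hl : 0 < l) (hl1 : l ≤ 1) (hL : L.Nodup) (hb : Pos1 L b) {x' x : ℝ}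
    (hxx : x' < x) (hx : x < 1) {u : ℕ} (hu : u ∈ L) :
    rho l (fun x => ZR G l L (cut G v (1 - x) b)) x *
      rho l (fun x => ZR G l L (cut G v (1 - x) b)) x' *
      (if cut G v (1 - x) b u < cut G v (1 - x') b u then
        Ph G l L u (cut G v (1 - x) b) - Ph G l L u (cut G v (1 - x') b)
      else -|Ph G l L u (cut G v (1 - x) b) - Ph G l L u (cut G v (1 - x') b)|) =
    rho l (fun x => ZR G l L (cut G v (1 - x) b)) x *
      rho l (fun x => ZR G l L (cut G v (1 - x) b)) x' * (ft G l L v b u x - ft G l L v b u x') -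
      b u * (1 - b u) * |rho l (fun x => ZR G l L (cut G v (1 - x) b)) x * gg G l L v b u x' -
        gg G l L v b u x * rho l (fun x => ZR G l L (cut G v (1 - x) b)) x'| := by
  have hW : 0 < ZR G l L (cut G v (1 - x) b) := (hpos G l L _ hl hl1).2 (cut_pos hb hx)
  have hW' : 0 < ZR G l L (cut G v (1 - x') b) :=
    (hpos G l L _ hl hl1).2 (cut_pos hb (hxx.trans hx))
  have hA := psiR_pos hl x
  have hA' := psiR_pos hl x'
  obtain ⟨hb0, hb1⟩ := hb u hu
  have hβ : 0 ≤ b u * (1 - b u) := mul_nonneg hb0.le (by linarith)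
  have hz' : 0 ≤ Zd G l L u (cut G v (1 - x') b) :=
    (hphb G l L u _ hl hl1 hL hu (cut_pos hb (hxx.trans hx))).2.2.1
  unfold rho gg ft
  by_cases h1 : G.Adj v u ∧ 1 - x < b u
  · have c1 : cut G v (1 - x) b u = 1 - x := by
      unfold cut
      rw [if_pos h1.1, min_eq_right h1.2.le]
    by_cases h2 : 1 - x' < b u
    · have c2 : cut G v (1 - x') b u = 1 - x' := by
        unfold cut
        rw [if_pos h1.1, min_eq_right h2.le]
      have h3 : G.Adj v u ∧ 1 - x' < b u := ⟨h1.1, h2⟩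
      have h4 : cut G v (1 - x) b u < cut G v (1 - x') b u := by
        rw [c1, c2]
        linarith
      rw [if_pos h1, if_pos h3, if_pos h1, if_pos h3, if_pos h4]
      simp
    · have h2' : b u ≤ 1 - x' := not_lt.mp h2
      have c2 : cut G v (1 - x') b u = b u := by
        unfold cut
        rw [if_pos h1.1, min_eq_left h2']
      have h3 : ¬ (G.Adj v u ∧ 1 - x' < b u) := fun h => h2 h.2
      rw [if_pos h1, if_neg h3, if_pos h1, if_neg h3, if_pos (by rw [c1, c2]; exact h1.2)]
      rw [mul_zero, zero_mul, sub_zero, sub_zero, abs_of_nonneg (by positivity)]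
      have e : Ph G l L u (cut G v (1 - x') b) =
          b u * (1 - b u) * Zd G l L u (cut G v (1 - x') b) / ZR G l L (cut G v (1 - x') b) := by
        unfold Ph
        rw [c2]
      rw [e]
      field_simp
  · have h3 : ¬ (G.Adj v u ∧ 1 - x' < b u) := fun h => h1 ⟨h.1, by linarith [h.2]⟩
    have c1 : cut G v (1 - x) b u = b u := by
      unfold cut
      by_cases h : G.Adj v u
      · rw [if_pos h, min_eq_left (not_lt.mp fun h' => h1 ⟨h, h'⟩)]
      · rw [if_neg h]
    have c2 : cut G v (1 - x') b u = b u := by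
      unfold cut
      by_cases h : G.Adj v u
      · rw [if_pos h, min_eq_left (not_lt.mp fun h' => h3 ⟨h, h'⟩)]
      · rw [if_neg h]
    rw [if_neg h1, if_neg h3, if_neg h1, if_neg h3, if_neg (by rw [c1, c2]; exact lt_irrefl _)]
    have e : Ph G l L u (cut G v (1 - x') b) =
        b u * (1 - b u) * Zd G l L u (cut G v (1 - x') b) / ZR G l L (cut G v (1 - x') b) := by
      unfold Ph
      rw [c2]
    have e' : Ph G l L u (cut G v (1 - x) b) =
        b u * (1 - b u) * Zd G l L u (cut G v (1 - x) b) / ZR G l L (cut G v (1 - x) b) := by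
      unfold Ph
      rw [c1]
    rw [e, e', sub_self, mul_zero, zero_sub]
    exact term_eq hA hA' hW hW' hβ

/-- Negated sums. -/
theorem sum_neg (M : List ℕ) (f : ℕ → ℝ) : (M.map fun u => -f u).sum = -(M.map f).sum := by
  induction M with
  | nil => simp
  | cons u M ih =>
    simp only [List.map_cons, List.sum_cons, ih]
    ring

/-- Multiplied sums. -/
theorem sum_mul (M : List ℕ) (f : ℕ → ℝ) (c : ℝ) :
    (M.map f).sum * c = (M.map fun u => f u * c).sum := by
  induction M with
  | nil => simp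
  | cons u M ih =>
    simp only [List.map_cons, List.sum_cons, ← ih]
    ring

/-- Subtracted sums. -/
theorem sum_sub (M : List ℕ) (f g : ℕ → ℝ) :
    (M.map fun u => f u - g u).sum = (M.map f).sum - (M.map g).sum := by
  induction M with
  | nil => simp
  | cons u M ih =>
    simp only [List.map_cons, List.sum_cons, ih]
    ring

/-- Compared sums. -/
theorem sum_le (M : List ℕ) (f g : ℕ → ℝ) (h : ∀ u ∈ M, f u ≤ g u) :
    (M.map f).sum ≤ (M.map g).sum := by
  induction M with
  | nil => simp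
  | cons u M ih =>
    simp only [List.map_cons, List.sum_cons]
    exact add_le_add (h u List.mem_cons_self) (ih fun w hw => h w (List.mem_cons_of_mem _ hw))

/-- The sum of the terms of `Fc`. -/
theorem fc_eq (G : SimpleGraph ℕ) (l : ℝ) (L : List ℕ) (v : ℕ) (b : ℕ → ℝ) (s : ℝ) :
    Fc G l L v b s = (L.map fun u => ft G l L v b u s).sum := rfl

/-- `Fc` is bounded. -/
theorem fc_bd (hphb : PhbStmt) (G : SimpleGraph ℕ) (l : ℝ) (L : List ℕ) (v : ℕ)
    (b : ℕ → ℝ) (hl : 0 < l) (hl1 : l ≤ 1) (hL : L.Nodup) (hb : Pos1 L b) {x : ℝ}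
    (hx : x < 1) : |Fc G l L v b x| ≤ L.length := by
  have h0 : ∀ u ∈ L, 0 ≤ ft G l L v b u x ∧ ft G l L v b u x ≤ 1 := by
    intro u hu
    obtain ⟨h1, h2, -⟩ := hphb G l L u _ hl hl1 hL hu (cut_pos (G := G) (v := v) hb hx)
    have h3 := (cut_pos (G := G) (v := v) hb hx u hu).1
    unfold ft
    split_ifs
    · exact ⟨h1, by linarith⟩
    · exact ⟨le_rfl, zero_le_one⟩
  rw [fc_eq]
  have h1 : (0 : ℝ) ≤ (L.map fun u => ft G l L v b u x).sum := by
    refine List.sum_nonneg fun a ha => ?_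
    obtain ⟨u, hu, rfl⟩ := List.mem_map.mp ha
    exact (h0 u hu).1
  have h2 : (L.map fun u => ft G l L v b u x).sum ≤ L.length := by
    refine (sum_le L _ (fun _ => (1 : ℝ)) fun u hu => (h0 u hu).2).trans (le_of_eq ?_)
    simp
  rw [abs_of_nonneg h1]
  exact h2

/-- `gg` is bounded. -/
theorem gg_bd (hphb : PhbStmt) (G : SimpleGraph ℕ) (l : ℝ) (L : List ℕ) (v : ℕ)
    (b : ℕ → ℝ) (hl : 0 < l) (hl1 : l ≤ 1) (hL : L.Nodup) (hb : Pos1 L b) {x : ℝ}
    (hx : x < 1) {u : ℕ} (hu : u ∈ L) : |gg G l L v b u x| ≤ 1 := by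
  obtain ⟨-, -, h1, h2⟩ := hphb G l L u _ hl hl1 hL hu (cut_pos (G := G) (v := v) hb hx)
  have h3 := psiR_pos hl x
  have h4 := psiR_le hl1 x
  unfold gg
  split_ifs
  · simp
  · rw [abs_of_nonneg (mul_nonneg h3.le h1)]
    exact mul_le_one₀ h4 h1 h2

/-- Measurability of `gg`. -/
theorem gg_meas (htmm : TmmStmt) (G : SimpleGraph ℕ) (l : ℝ) (L : List ℕ) (v : ℕ)
    (b : ℕ → ℝ) (u : ℕ) : Measurable (gg G l L v b u) := by
  unfold gg
  refine (psiR_meas l).mul (Measurable.ite ?_ measurable_const ((htmm G l L v b).2.2.2 u))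
  by_cases h : G.Adj v u
  · have : {x : ℝ | G.Adj v u ∧ 1 - x < b u} = {x : ℝ | 1 - x < b u} := by
      ext x
      exact ⟨fun hx => hx.2, fun hx => ⟨h, hx⟩⟩
    rw [this]
    exact measurableSet_lt (measurable_const.sub measurable_id) measurable_const
  · have : {x : ℝ | G.Adj v u ∧ 1 - x < b u} = ∅ := by
      ext x
      exact ⟨fun hx => (h hx.1).elim, fun hx => hx.elim⟩
    rw [this]
    exact MeasurableSet.empty

end TMS

open TMS

/-- The recursion inequality. -/
theorem tms (hmid : MidStmt) (hzdu : ZduStmt) (hphb : PhbStmt) (hloc : LocStmt) (hpos : PosStmt)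
    (hcnt : CntStmt) (htmm : TmmStmt) : TmsStmt := by
  intro G l L v b hl hl1 hL hv hb y' y hy' hyy hy1 hy'h hyh
  have hy0 : 0 < y := hy'.trans hyy
  have hy'1 : y' ≤ 1 := hyy.le.trans hy1
  set W : ℝ → ℝ := fun x => ZR G l L (cut G v (1 - x) b) with hWdef
  have hIn : In01 L b := fun u hu => ⟨(hb u hu).1.le, (hb u hu).2⟩
  -- the values at the moved bounds
  have hcut : ∀ (t x : ℝ), ∀ u ∈ L, cut G v (1 - x) (update b v t) u = cut G v (1 - x) b u := by
    intro t x u hu
    have huv : u ≠ v := fun h => hv (h ▸ hu)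
    unfold cut
    rw [update_of_ne huv]
  have hZR : ∀ t : ℝ, ZR G l (v :: L) (update b v t) = Zf l W t := by
    intro t
    change (∫ x in (0 : ℝ)..(update b v t v), psiR l x *
      ZR G l L (cut G v (1 - x) (update b v t))) = _
    rw [update_self]
    unfold Zf rho
    refine intervalIntegral.integral_congr fun x _ => ?_
    rw [(hloc G (fun _ => 0) 0 l L _ _ (hcut t x)).2.1]
  have hZdv : ∀ t : ℝ, Zd G l (v :: L) v (update b v t) = rho l W t := by
    intro t
    unfold Zd rho
    rw [update_self, List.erase_cons_head, (hloc G (fun _ => 0) 0 l L _ _ (hcut t t)).2.1]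
  have hPos : ∀ t : ℝ, 0 < t → t ≤ 1 → Pos1 (v :: L) (update b v t) := by
    intro t ht ht1 u hu
    rcases List.mem_cons.mp hu with h | h
    · rw [h, update_self]
      exact ⟨ht, ht1⟩
    · have huv : u ≠ v := fun h' => hv (h' ▸ h)
      rw [update_of_ne huv]
      exact hb u h
  have hZ : 0 < Zf l W y := by
    rw [← hZR]
    exact (hpos G l _ _ hl hl1).2 (hPos y hy0 hy1)
  have hZ' : 0 < Zf l W y' := by
    rw [← hZR]
    exact (hpos G l _ _ hl hl1).2 (hPos y' hy' hy'1)
  -- the potential of the move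
  have hTm : Tm G l (v :: L) (update b v y) (update b v y') = Mf l W y' y -
      (L.map fun u => b u * (1 - b u) * |Zd G l (v :: L) u (update b v y') / Zf l W y' -
        Zd G l (v :: L) u (update b v y) / Zf l W y|).sum := by
    unfold Tm
    rw [List.map_cons, List.sum_cons, update_self, update_self, if_pos hyy,
      sub_eq_add_neg (Mf l W y' y), ← sum_neg]
    congr 1
    · unfold Ph Mf
      rw [update_self, update_self, hZdv, hZdv, hZR, hZR]
    · refine congrArg List.sum (List.map_congr_left fun u hu => ?_)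
      have huv : u ≠ v := fun h' => hv (h' ▸ hu)
      obtain ⟨hb0, hb1⟩ := hb u hu
      have hβ : 0 ≤ b u * (1 - b u) := mul_nonneg hb0.le (by linarith)
      rw [update_of_ne huv, update_of_ne huv, if_neg (lt_irrefl _)]
      unfold Ph
      rw [update_of_ne huv, update_of_ne huv, hZR, hZR]
      rw [show b u * (1 - b u) * Zd G l (v :: L) u (update b v y') / Zf l W y' -
        b u * (1 - b u) * Zd G l (v :: L) u (update b v y) / Zf l W y = b u * (1 - b u) *
        (Zd G l (v :: L) u (update b v y') / Zf l W y' -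
          Zd G l (v :: L) u (update b v y) / Zf l W y) by ring, abs_mul, abs_of_nonneg hβ]
  have hβ : ∀ u ∈ L, 0 ≤ b u * (1 - b u) := fun u hu =>
    mul_nonneg (hb u hu).1.le (by linarith [(hb u hu).2])
  constructor
  swap
  · rw [hTm]
    refine sub_le_self _ (List.sum_nonneg fun a ha => ?_)
    obtain ⟨u, hu, rfl⟩ := List.mem_map.mp ha
    exact mul_nonneg (hβ u hu) (abs_nonneg _)
  -- integrability
  have hρ : IntegrableOn (rho l W) (Set.Ioo 0 y) := by
    have h1 : IntervalIntegrable (rho l W) volume 0 1 := (hcnt G 0 l L v b hIn).2.2.2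
    rw [intervalIntegrable_iff_integrableOn_Ioo_of_le zero_le_one] at h1
    exact h1.mono_set (Set.Ioo_subset_Ioo_right hy1)
  have hbdd : ∀ (f : ℝ → ℝ) (C : ℝ), Measurable f → (∀ x, x < 1 → |f x| ≤ C) →
      IntegrableOn f (Set.Ioo 0 y) := by
    intro f C hf hC
    refine IntegrableOn.of_bound (by simp) hf.aestronglyMeasurable C ?_
    refine (ae_restrict_iff' measurableSet_Ioo).2 (Eventually.of_forall fun x hx => ?_)
    exact hC x (hx.2.trans_le hy1)
  have hgg : ∀ u ∈ L, IntegrableOn (gg G l L v b u) (Set.Ioo 0 y) := fun u hu =>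
    hbdd _ 1 (gg_meas htmm G l L v b u) fun x hx => gg_bd hphb G l L v b hl hl1 hL hb hx hu
  have hρF : IntegrableOn (fun x => rho l W x * Fc G l L v b x) (Set.Ioo 0 y) := by
    refine Integrable.mul_bdd (c := (L.length : ℝ)) hρ
      (htmm G l L v b).2.2.1.aestronglyMeasurable ?_
    refine (ae_restrict_iff' measurableSet_Ioo).2 (Eventually.of_forall fun x hx => ?_)
    exact fc_bd hphb G l L v b hl hl1 hL hb (hx.2.trans_le hy1)
  set S : Set (ℝ × ℝ) := Set.Ioo y' y ×ˢ Set.Ioo 0 y' with hS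
  have hDi : ∀ u ∈ L, IntegrableOn (fun p : ℝ × ℝ => rho l W p.1 * gg G l L v b u p.2 -
      gg G l L v b u p.1 * rho l W p.2) S (volume.prod volume) := fun u hu =>
    (prod_int hy'.le hyy.le hρ (hgg u hu)).sub (prod_int hy'.le hyy.le (hgg u hu) hρ)
  have hDa : ∀ u ∈ L, IntegrableOn (fun p : ℝ × ℝ => |rho l W p.1 * gg G l L v b u p.2 -
      gg G l L v b u p.1 * rho l W p.2|) S (volume.prod volume) := fun u hu => (hDi u hu).abs
  have hFi : IntegrableOn (fun p : ℝ × ℝ => rho l W p.1 * rho l W p.2 *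
      (Fc G l L v b p.1 - Fc G l L v b p.2)) S (volume.prod volume) := by
    refine ((prod_int hy'.le hyy.le hρF hρ).sub (prod_int hy'.le hyy.le hρ hρF)).congr
      (Eventually.of_forall fun p => ?_)
    change rho l W p.1 * Fc G l L v b p.1 * rho l W p.2 -
      rho l W p.1 * (rho l W p.2 * Fc G l L v b p.2) = _
    ring
  obtain ⟨hsi, hse⟩ := sum_int L (fun u => b u * (1 - b u)) (fun u (p : ℝ × ℝ) =>
    |rho l W p.1 * gg G l L v b u p.2 - gg G l L v b u p.1 * rho l W p.2|)
    (μ := (volume.prod volume).restrict S) hDa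
  -- the two integrals
  have hCf : Cf l W (Fc G l L v b) y' y = ∫ p in S, rho l W p.1 * rho l W p.2 *
      (Fc G l L v b p.1 - Fc G l L v b p.2) ∂(volume.prod volume) := by
    unfold Cf
    exact iter_eq hy'.le hyy.le (fun x' x => rho l W x * rho l W x' *
      (Fc G l L v b x - Fc G l L v b x')) _ hFi fun x _ x' _ => rfl
  have hC2 : C2 l W (fun x' x => Tm G l L (cut G v (1 - x') b) (cut G v (1 - x) b)) y' y =
      (∫ p in S, rho l W p.1 * rho l W p.2 *
        (Fc G l L v b p.1 - Fc G l L v b p.2) ∂(volume.prod volume)) -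
      (L.map fun u => b u * (1 - b u) * ∫ p in S, |rho l W p.1 * gg G l L v b u p.2 -
        gg G l L v b u p.1 * rho l W p.2| ∂(volume.prod volume)).sum := by
    rw [← hse, ← integral_sub hFi hsi]
    unfold C2
    refine iter_eq hy'.le hyy.le (fun x' x => rho l W x * rho l W x' *
      Tm G l L (cut G v (1 - x') b) (cut G v (1 - x) b)) _ (hFi.sub hsi) fun x hx x' hx' => ?_
    change rho l W x * rho l W x' * Tm G l L (cut G v (1 - x') b) (cut G v (1 - x) b) =
      rho l W x * rho l W x' * (Fc G l L v b x - Fc G l L v b x') -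
      (L.map fun u => b u * (1 - b u) * |rho l W x * gg G l L v b u x' -
        gg G l L v b u x * rho l W x'|).sum
    unfold Tm
    rw [fc_eq, fc_eq, ← sum_sub, mul_comm, sum_mul, mul_comm (rho l W x * rho l W x'), sum_mul,
      ← sum_sub]
    refine congrArg List.sum (List.map_congr_left fun u hu => ?_)
    have h := pt_eq hphb hpos G l L v b hl hl1 hL hb (hx'.2.trans hx.1)
      (hx.2.trans_le hy1) hu
    rw [mul_comm, h]
    ring
  -- the difference of the quotients
  have hQ : ∀ u ∈ L, |Zd G l (v :: L) u (update b v y') / Zf l W y' -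
      Zd G l (v :: L) u (update b v y) / Zf l W y| * (Zf l W y' * Zf l W y) ≤
      ∫ p in S, |rho l W p.1 * gg G l L v b u p.2 -
        gg G l L v b u p.1 * rho l W p.2| ∂(volume.prod volume) := by
    intro u hu
    have e1 : Zd G l (v :: L) u (update b v y') = ∫ x in (0 : ℝ)..y', gg G l L v b u x :=
      hzdu G l L v u b hl hl1 hL hv hu hb y' hy' hy'1
    have e2 : Zd G l (v :: L) u (update b v y) = ∫ x in (0 : ℝ)..y, gg G l L v b u x :=
      hzdu G l L v u b hl hl1 hL hv hu hb y hy0 hy1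
    rw [← abs_of_pos (mul_pos hZ' hZ), ← abs_mul]
    have e3 : (Zd G l (v :: L) u (update b v y') / Zf l W y' -
        Zd G l (v :: L) u (update b v y) / Zf l W y) * (Zf l W y' * Zf l W y) =
        (∫ x in (0 : ℝ)..y', gg G l L v b u x) * (∫ x in (0 : ℝ)..y, rho l W x) -
        (∫ x in (0 : ℝ)..y, gg G l L v b u x) * ∫ x in (0 : ℝ)..y', rho l W x := by
      rw [e1, e2]
      change _ = (∫ x in (0 : ℝ)..y', gg G l L v b u x) * Zf l W y -
        (∫ x in (0 : ℝ)..y, gg G l L v b u x) * Zf l W y'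
      field_simp
    rw [e3, dif_eq hy'.le hyy.le (hgg u hu) hρ]
    exact abs_integral_le_integral_abs
  rw [hTm, hC2, sub_mul, hmid G l L v b hl hl1 hL hb y' y hy' hyy hy1 hy'h hyh, hCf, sum_mul]
  have hfin : (L.map fun u => b u * (1 - b u) * |Zd G l (v :: L) u (update b v y') / Zf l W y' -
      Zd G l (v :: L) u (update b v y) / Zf l W y| * (Zf l W y' * Zf l W y)).sum ≤
      (L.map fun u => b u * (1 - b u) * ∫ p in S, |rho l W p.1 * gg G l L v b u p.2 -
        gg G l L v b u p.1 * rho l W p.2| ∂(volume.prod volume)).sum := by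
    refine sum_le L _ _ fun u hu => ?_
    rw [mul_assoc]
    exact mul_le_mul_of_nonneg_left (hQ u hu) (hβ u hu)
  linarith

end Pool.Agent.Helper77.BO
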